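import Pool.Agent.W2helper2.RG.Stm1

/-!
# Project RG, piece TEN: tensor products of representations of rank two
-/

set_option autoImplicit false

namespace Pool.Agent.W2helper16.RG

open Pool.Agent.W2helper2.RG

/-- reduction modulo three -/
private noncomputable def q3 : ℤ_[3] →+* ℤ_[3] ⧸ Ideal.span ({(3 : ℤ_[3])} : Set ℤ_[3]) :=
  Ideal.Quotient.mk _

private lemma q3_zero (x : ℤ_[3]) : (3 : ℤ_[3]) ∣ x ↔ q3 x = 0 := by
  unfold q3
  rw [Ideal.Quotient.eq_zero_iff_mem, Ideal.mem_span_singleton]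

private lemma q3_one (x : ℤ_[3]) : (3 : ℤ_[3]) ∣ x - 1 ↔ q3 x = 1 := by
  rw [q3_zero, map_sub, map_one, sub_eq_zero]

private lemma q3_neg (x : ℤ_[3]) : (3 : ℤ_[3]) ∣ x + 1 ↔ q3 x = -1 := by
  rw [q3_zero, map_add, map_one, add_eq_zero_iff_eq_neg]

theorem ten : P_TEN := by
  intro G _ n ρ χ i
  have hone : ∀ σ, (∀ k, ρ k σ = 1) → χ σ = 1 → tens ρ χ i σ = 1 := by
    intro σ h1 h2
    ext α β
    simp only [tens, Matrix.of_apply, h1, h2, inv_one, one_pow, Units.val_one, one_mul,
      Matrix.one_apply]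
    rw [Finset.prod_ite_zero]
    simp only [Finset.mem_univ, forall_true_left, Finset.prod_const_one, funext_iff]
  refine ⟨hone 1 (fun k => map_one _) (map_one _), ?_, hone, ?_⟩
  · intro σ τ
    ext α β
    simp only [tens, Matrix.of_apply, Matrix.mul_apply, map_mul]
    rw [Finset.prod_univ_sum, Fintype.piFinset_univ, Finset.mul_sum]
    refine Finset.sum_congr rfl fun γ _ => ?_
    rw [Finset.prod_mul_distrib, mul_inv, mul_pow, Units.val_mul]
    ring
  · intro σ hχ h10
    have hc : q3 (((χ σ)⁻¹ ^ i : ℤ_[3]ˣ) : ℤ_[3]) = 1 := by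
      have h1 : q3 ((χ σ : ℤ_[3]ˣ) : ℤ_[3]) = 1 := (q3_one _).1 hχ
      have h2 : q3 (((χ σ)⁻¹ : ℤ_[3]ˣ) : ℤ_[3]) = 1 := by
        have h3 : q3 ((χ σ : ℤ_[3]ˣ) : ℤ_[3]) * q3 (((χ σ)⁻¹ : ℤ_[3]ˣ) : ℤ_[3]) = 1 := by
          rw [← map_mul, Units.mul_inv, map_one]
        rwa [h1, one_mul] at h3
      rw [Units.val_pow_eq_pow_val, map_pow, h2, one_pow]
    refine ⟨?_, ?_, ?_⟩
    · intro α β hab hcard
      obtain ⟨k, hk1, hk0⟩ : ∃ k, α k = 1 ∧ β k = 0 := by
        by_contra hcon
        push Not at hcon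
        have hsub : (Finset.univ.filter fun k => α k = 1) ⊆ Finset.univ.filter fun k => β k = 1 := by
          intro k hk
          rw [Finset.mem_filter] at hk ⊢
          have := hcon k hk.2
          exact ⟨Finset.mem_univ _, by omega⟩
        have heq := Finset.eq_of_subset_of_card_le hsub hcard
        apply hab
        funext k
        have h1 := Finset.ext_iff.1 heq k
        simp only [Finset.mem_filter, Finset.mem_univ, true_and] at h1
        by_cases h2 : α k = 1
        · rw [h2, h1.1 h2]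
        · have h3 : ¬ β k = 1 := fun h => h2 (h1.2 h)
          omega
      rw [tens, Matrix.of_apply]
      refine Dvd.dvd.mul_left ?_ _
      refine Dvd.dvd.trans ?_ (Finset.dvd_prod_of_mem _ (Finset.mem_univ k))
      rw [hk1, hk0]
      exact h10 k
    · intro h α
      rw [q3_one, tens, Matrix.of_apply, map_mul, hc, map_prod, one_mul]
      exact Finset.prod_eq_one fun k _ => (q3_one _).1 (h k _)
    · intro hn h α
      rw [q3_neg, tens, Matrix.of_apply, map_mul, hc, map_prod, one_mul,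
        Finset.prod_congr rfl fun k _ => (q3_neg _).1 (h k _), Finset.prod_const, Finset.card_univ,
        Fintype.card_fin, hn.neg_one_pow]

end Pool.Agent.W2helper16.RG
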