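import Pool.Agent.W2helper2.RG.Stm1

/-!
# Project RG, piece X: from the residual classes to the `3`-adic ones
-/

set_option autoImplicit false

namespace Pool.Agent.W2helper16.RG

open Pool.Agent.W2helper2.RG Matrix

private lemma coe3 : ((3 : ℤ_[3]) : ℚ_[3]) = 3 := rfl

/-- reduction modulo three -/
private noncomputable abbrev f3 : ℤ_[3] →+* ZMod 3 := PadicInt.toZMod

private lemma f3_zero (x : ℤ_[3]) : (3 : ℤ_[3]) ∣ x ↔ f3 x = 0 := by
  have h := PadicInt.ker_toZMod (p := 3)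
  rw [PadicInt.maximalIdeal_eq_span_p] at h
  rw [← RingHom.mem_ker, h, Ideal.mem_span_singleton]
  norm_num

private lemma f3_one (x : ℤ_[3]) : (3 : ℤ_[3]) ∣ x - 1 ↔ f3 x = 1 := by
  rw [f3_zero, map_sub, map_one, sub_eq_zero]

private lemma f3_neg (x : ℤ_[3]) : (3 : ℤ_[3]) ∣ x + 1 ↔ f3 x = -1 := by
  rw [f3_zero, map_add, map_one, add_eq_zero_iff_eq_neg]

private lemma f3_cont : IsLocallyConstant (fun x : ℤ_[3] => f3 x) := by
  rw [IsLocallyConstant.iff_exists_open]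
  intro x
  refine ⟨Metric.ball x 1, Metric.isOpen_ball, Metric.mem_ball_self one_pos, fun y hy => ?_⟩
  rw [Metric.mem_ball, dist_eq_norm, PadicInt.norm_lt_one_iff_dvd] at hy
  have h1 : f3 (y - x) = 0 := (f3_zero _).1 (by exact_mod_cast hy)
  rwa [map_sub, sub_eq_zero] at h1

section
variable {J : Type} [Fintype J] [DecidableEq J]

/-- the coordinate `α` of a product modulo three -/
private lemma key (A : Matrix J J ℤ_[3]) (v : J → ℤ_[3]) (α : J)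
    (h : ∀ β, β ≠ α → f3 (A α β) = 0 ∨ f3 (v β) = 0) :
    f3 ((A *ᵥ v) α) = f3 (A α α) * f3 (v α) := by
  rw [Matrix.mulVec, dotProduct, map_sum, Finset.sum_eq_single α, map_mul]
  · intro β _ hβ
    rw [map_mul]
    rcases h β hβ with h | h <;> simp [h]
  · intro h
    exact absurd (Finset.mem_univ α) h

private lemma claim2 (A : Matrix J J ℤ_[3]) (wt : J → ℕ)
    (off : ∀ α β, α ≠ β → wt β ≤ wt α → f3 (A α β) = 0) (neg : ∀ α, f3 (A α α) = -1)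
    (u : J → ℤ_[3]) (w : ℕ) (hu : ∀ α, w ≤ wt α → f3 ((A *ᵥ u - u) α) = 0) :
    ∀ α, w ≤ wt α → f3 (u α) = 0 := by
  set B := ∑ α, wt α + 1 with hB
  have hlt : ∀ α, wt α < B := by
    intro α
    have := Finset.single_le_sum (f := wt) (fun _ _ => Nat.zero_le _) (Finset.mem_univ α)
    omega
  have main : ∀ n α, w ≤ wt α → B ≤ wt α + n → f3 (u α) = 0 := by
    intro n
    induction n with
    | zero =>
      intro α _ h
      have := hlt α
      omega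
    | succ n ih =>
      intro α hw hn
      have h1 := hu α hw
      rw [Pi.sub_apply, map_sub, key A u α, neg α] at h1
      · revert h1
        generalize f3 (u α) = x
        revert x
        decide
      · intro β hβ
        by_cases hle : wt β ≤ wt α
        · exact Or.inl (off α β (Ne.symm hβ) hle)
        · exact Or.inr (ih β (by omega) (by omega))
  intro α hw
  exact main B α hw (by omega)

end

section
variable {G J : Type} [Group G] [TopologicalSpace G] [Fintype J] [DecidableEq J]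

/-- integral cocycles with the local conditions -/
private structure IC (𝒟 : Set (Set G)) (N : Set G) (ρ : G →* Matrix J J ℤ_[3])
    (c : G → J → ℤ_[3]) : Prop where
  cont : ∀ α, Continuous fun σ => c σ α
  mul : ∀ σ τ, c (σ * τ) = c σ + ρ σ *ᵥ c τ
  dec : ∀ S ∈ 𝒟, ∃ z : J → ℤ_[3], ∀ σ ∈ S, c σ = ρ σ *ᵥ z - z
  van : ∀ σ ∈ N, c σ = 0

variable {pl : G → Prop} {𝒟 : Set (Set G)} {N : Set G} {ρ : G →* Matrix J J ℤ_[3]} {wt : J → ℕ}

private lemma IC.sub (hρ : ∀ α β, Continuous fun σ => ρ σ α β) (hN : ∀ σ ∈ N, ρ σ = 1)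
    {c : G → J → ℤ_[3]} (hc : IC 𝒟 N ρ c) (y : J → ℤ_[3]) :
    IC 𝒟 N ρ (fun σ => c σ - (ρ σ *ᵥ y - y)) where
  cont α := by
    simp only [Pi.sub_apply, Matrix.mulVec, dotProduct]
    exact (hc.cont α).sub ((continuous_finsetSum _ fun β _ => (hρ α β).mul continuous_const).sub
      continuous_const)
  mul σ τ := by
    rw [hc.mul, map_mul, ← Matrix.mulVec_mulVec, Matrix.mulVec_sub, Matrix.mulVec_sub]
    abel
  dec S hS := by
    obtain ⟨z, hz⟩ := hc.dec S hS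
    refine ⟨z - y, fun σ hσ => ?_⟩
    rw [hz σ hσ, Matrix.mulVec_sub]
    abel
  van σ hσ := by
    rw [hc.van σ hσ, hN σ hσ, Matrix.one_mulVec, sub_self, sub_self]

private lemma step (hpl : ∀ σ τ, pl (σ * τ) ↔ (pl σ ↔ pl τ)) (hex : ∃ σ, ¬ pl σ)
    (h𝒟 : ∀ S ∈ 𝒟, ∃ σ ∈ S, ¬ pl σ) (hR : Resid pl 𝒟 N) (hT : Tri pl ρ wt)
    {c : G → J → ℤ_[3]} (hc : IC 𝒟 N ρ c) (w : ℕ)
    (hw : ∀ σ α, w + 1 ≤ wt α → f3 (c σ α) = 0) :
    ∃ δ : J → ℤ_[3], ∀ σ α, w ≤ wt α → f3 ((c σ - (ρ σ *ᵥ δ - δ)) α) = 0 := by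
  obtain ⟨σ₁, hσ₁⟩ := hex
  have off : ∀ σ α β, α ≠ β → wt β ≤ wt α → f3 (ρ σ α β) = 0 := fun σ α β h1 h2 =>
    (f3_zero _).1 (hT.off σ α β h1 h2)
  have one : ∀ σ, pl σ → ∀ α, f3 (ρ σ α α) = 1 := fun σ h α => (f3_one _).1 (hT.one σ h α)
  have neg : ∀ σ, ¬ pl σ → ∀ α, f3 (ρ σ α α) = -1 := fun σ h α => (f3_neg _).1 (hT.neg σ h α)
  -- the residual classes
  have hmul : ∀ α, wt α = w → ∀ σ τ,
      f3 (c (σ * τ) α) = f3 (c σ α) + f3 (ρ σ α α) * f3 (c τ α) := by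
    intro α hα σ τ
    rw [hc.mul, Pi.add_apply, map_add, key (ρ σ) (c τ) α]
    intro β hβ
    by_cases hle : wt β ≤ wt α
    · exact Or.inl (off σ α β (Ne.symm hβ) hle)
    · exact Or.inr (hw τ β (by omega))
  have hres : ∀ α, wt α = w → ∀ σ, pl σ → f3 (c σ α) = 0 := by
    intro α hα
    refine hR (fun σ => f3 (c σ α)) ?_ ?_ ?_ ?_ ?_
    · exact f3_cont.comp_continuous (hc.cont α)
    · intro σ τ hσ
      change f3 (c (σ * τ) α) = f3 (c σ α) + f3 (c τ α)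
      rw [hmul α hα, one σ hσ, one_mul]
    · intro σ τ hσ
      change f3 (c (σ * τ) α) = f3 (c σ α) - f3 (c τ α)
      rw [hmul α hα, neg σ hσ]
      ring
    · intro S hS σ hσ hp
      change f3 (c σ α) = 0
      obtain ⟨u, hu⟩ := hc.dec S hS
      obtain ⟨σ₀, hσ₀, hn₀⟩ := h𝒟 S hS
      have hu0 := claim2 (ρ σ₀) wt (off σ₀) (neg σ₀ hn₀) u (w + 1) (by
        intro β hβ
        rw [← hu σ₀ hσ₀]
        exact hw σ₀ β hβ)
      rw [hu σ hσ, Pi.sub_apply, map_sub, key (ρ σ) u α, one σ hp, one_mul, sub_self]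
      intro β hβ
      by_cases hle : wt β ≤ wt α
      · exact Or.inl (off σ α β (Ne.symm hβ) hle)
      · exact Or.inr (hu0 β (by omega))
    · intro σ hσ
      change f3 (c σ α) = 0
      rw [hc.van σ hσ, Pi.zero_apply, map_zero]
  have hcst : ∀ α, wt α = w → ∀ σ, ¬ pl σ → f3 (c σ α) = f3 (c σ₁ α) := by
    intro α hα σ hσ
    have h1 : pl (σ₁⁻¹ * σ) := by
      have h2 := hpl σ₁ (σ₁⁻¹ * σ)
      rw [mul_inv_cancel_left] at h2
      tauto
    have h2 := hmul α hα σ₁ (σ₁⁻¹ * σ)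
    rw [mul_inv_cancel_left, hres α hα _ h1, mul_zero, add_zero] at h2
    exact h2
  refine ⟨fun α => if wt α = w then c σ₁ α else 0, fun σ α hα => ?_⟩
  set δ : J → ℤ_[3] := fun α => if wt α = w then c σ₁ α else 0 with hδ
  have hk : f3 ((ρ σ *ᵥ δ) α) = f3 (ρ σ α α) * f3 (δ α) := by
    refine key _ _ _ fun β hβ => ?_
    by_cases h1 : wt β = w
    · exact Or.inl (off σ α β (Ne.symm hβ) (by omega))
    · right
      rw [hδ]
      simp [h1]
  rw [Pi.sub_apply, Pi.sub_apply, map_sub, map_sub, hk]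
  by_cases h1 : wt α = w
  · have h2 : f3 (δ α) = f3 (c σ₁ α) := by
      rw [hδ]
      simp [h1]
    rw [h2]
    by_cases hp : pl σ
    · rw [hres α h1 σ hp, one σ hp]
      ring
    · rw [hcst α h1 σ hp, neg σ hp]
      generalize f3 (c σ₁ α) = x
      revert x
      decide
  · have h2 : f3 (δ α) = 0 := by
      rw [hδ]
      simp [h1]
    rw [h2, hw σ α (by omega)]
    ring

private lemma claim3 (hpl : ∀ σ τ, pl (σ * τ) ↔ (pl σ ↔ pl τ)) (hex : ∃ σ, ¬ pl σ)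
    (h𝒟 : ∀ S ∈ 𝒟, ∃ σ ∈ S, ¬ pl σ) (hR : Resid pl 𝒟 N)
    (hρ : ∀ α β, Continuous fun σ => ρ σ α β) (hN : ∀ σ ∈ N, ρ σ = 1) (hT : Tri pl ρ wt)
    {c : G → J → ℤ_[3]} (hc : IC 𝒟 N ρ c) :
    ∃ y : J → ℤ_[3], ∀ σ α, f3 ((c σ - (ρ σ *ᵥ y - y)) α) = 0 := by
  set B := ∑ α, wt α + 1 with hB
  have hlt : ∀ α, wt α < B := by
    intro α
    have := Finset.single_le_sum (f := wt) (fun _ _ => Nat.zero_le _) (Finset.mem_univ α)
    omega
  have main : ∀ n w, B ≤ w + n →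
      ∃ y : J → ℤ_[3], ∀ σ α, w ≤ wt α → f3 ((c σ - (ρ σ *ᵥ y - y)) α) = 0 := by
    intro n
    induction n with
    | zero =>
      intro w hn
      refine ⟨0, fun σ α h => ?_⟩
      have := hlt α
      omega
    | succ n ih =>
      intro w hn
      obtain ⟨y, hy⟩ := ih (w + 1) (by omega)
      obtain ⟨δ, hδ⟩ := step hpl hex h𝒟 hR hT (hc.sub hρ hN y) w hy
      refine ⟨y + δ, fun σ α h => ?_⟩
      have h1 := hδ σ α h
      have h2 : c σ - (ρ σ *ᵥ (y + δ) - (y + δ)) =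
          c σ - (ρ σ *ᵥ y - y) - (ρ σ *ᵥ δ - δ) := by
        rw [Matrix.mulVec_add]
        abel
      rw [h2]
      exact h1
  obtain ⟨y, hy⟩ := main B 0 (by omega)
  exact ⟨y, fun σ α => hy σ α (Nat.zero_le _)⟩

private lemma three_ne : (3 : ℤ_[3]) ≠ 0 := by
  have := PadicInt.prime_p (p := 3)
  exact_mod_cast this.ne_zero

private lemma claim4 (hpl : ∀ σ τ, pl (σ * τ) ↔ (pl σ ↔ pl τ)) (hex : ∃ σ, ¬ pl σ)
    (h𝒟 : ∀ S ∈ 𝒟, ∃ σ ∈ S, ¬ pl σ) (hR : Resid pl 𝒟 N)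
    (hρ : ∀ α β, Continuous fun σ => ρ σ α β) (hN : ∀ σ ∈ N, ρ σ = 1) (hT : Tri pl ρ wt)
    (m : ℕ) : ∀ {c : G → J → ℤ_[3]}, IC 𝒟 N ρ c →
    ∃ y : J → ℤ_[3], ∀ σ α, (3 : ℤ_[3]) ^ m ∣ (c σ - (ρ σ *ᵥ y - y)) α := by
  induction m with
  | zero => exact fun _ => ⟨0, fun σ α => by rw [pow_zero]; exact one_dvd _⟩
  | succ m ih =>
    intro c hc
    obtain ⟨y, hy⟩ := claim3 hpl hex h𝒟 hR hρ hN hT hc
    have hy' : ∀ σ α, ∃ t, (c σ - (ρ σ *ᵥ y - y)) α = 3 * t := fun σ α => (f3_zero _).2 (hy σ α)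
    choose c₁ hc₁ using hy'
    have hc' := hc.sub hρ hN y
    have hvec : ∀ σ, c σ - (ρ σ *ᵥ y - y) = (3 : ℤ_[3]) • c₁ σ := by
      intro σ
      funext α
      rw [hc₁ σ α]
      rfl
    have hinj : ∀ u v : J → ℤ_[3], (3 : ℤ_[3]) • u = (3 : ℤ_[3]) • v → u = v := by
      intro u v h
      funext α
      have h1 := congrFun h α
      simp only [Pi.smul_apply, smul_eq_mul] at h1
      exact mul_left_cancel₀ three_ne h1
    have hI : IC 𝒟 N ρ c₁ := by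
      refine ⟨fun α => ?_, fun σ τ => ?_, fun S hS => ?_, fun σ hσ => ?_⟩
      · have h1 : Continuous fun σ => (((c σ - (ρ σ *ᵥ y - y)) α : ℤ_[3]) : ℚ_[3]) / 3 :=
          (continuous_subtype_val.comp (hc'.cont α)).div_const _
        refine continuous_induced_rng.2 ?_
        refine h1.congr fun σ => ?_
        rw [hc₁ σ α]
        change (((3 : ℤ_[3]) * c₁ σ α : ℤ_[3]) : ℚ_[3]) / 3 = (c₁ σ α : ℚ_[3])
        rw [PadicInt.coe_mul, coe3, mul_div_cancel_left₀ _ (by norm_num)]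
      · apply hinj
        rw [← hvec, hc'.mul, hvec, hvec, Matrix.mulVec_smul, smul_add]
      · obtain ⟨u, hu⟩ := hc'.dec S hS
        obtain ⟨σ₀, hσ₀, hn₀⟩ := h𝒟 S hS
        have hu0 := claim2 (ρ σ₀) wt (fun α β h1 h2 => (f3_zero _).1 (hT.off σ₀ α β h1 h2))
          (fun α => (f3_neg _).1 (hT.neg σ₀ hn₀ α)) u 0 (by
            intro β _
            rw [← hu σ₀ hσ₀]
            exact hy σ₀ β)
        have hu1 : ∀ α, ∃ t, u α = 3 * t := fun α => (f3_zero _).2 (hu0 α (Nat.zero_le _))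
        choose u' hu' using hu1
        have hu2 : u = (3 : ℤ_[3]) • u' := by
          funext α
          rw [hu' α]
          rfl
        refine ⟨u', fun σ hσ => ?_⟩
        apply hinj
        rw [← hvec, hu σ hσ, hu2, Matrix.mulVec_smul, smul_sub]
      · apply hinj
        rw [← hvec, hc'.van σ hσ, smul_zero]
    obtain ⟨y₁, hy₁⟩ := ih hI
    refine ⟨y + (3 : ℤ_[3]) • y₁, fun σ α => ?_⟩
    have h2 : c σ - (ρ σ *ᵥ (y + (3 : ℤ_[3]) • y₁) - (y + (3 : ℤ_[3]) • y₁)) =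
        (3 : ℤ_[3]) • (c₁ σ - (ρ σ *ᵥ y₁ - y₁)) := by
      rw [smul_sub, ← hvec σ, Matrix.mulVec_add, Matrix.mulVec_smul, smul_sub]
      abel
    rw [h2, Pi.smul_apply, smul_eq_mul, pow_succ, mul_comm]
    exact mul_dvd_mul_left _ (hy₁ σ α)

private lemma claim5 (hpl : ∀ σ τ, pl (σ * τ) ↔ (pl σ ↔ pl τ)) (hex : ∃ σ, ¬ pl σ)
    (h𝒟 : ∀ S ∈ 𝒟, ∃ σ ∈ S, ¬ pl σ) (hR : Resid pl 𝒟 N)
    (hρ : ∀ α β, Continuous fun σ => ρ σ α β) (hN : ∀ σ ∈ N, ρ σ = 1) (hT : Tri pl ρ wt)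
    {c : G → J → ℤ_[3]} (hc : IC 𝒟 N ρ c) :
    ∃ y : J → ℤ_[3], ∀ σ, c σ = ρ σ *ᵥ y - y := by
  let K : ℕ → Set (J → ℤ_[3]) := fun m =>
    {y | ∀ σ α, ‖(c σ - (ρ σ *ᵥ y - y)) α‖ ≤ (3 : ℝ) ^ (-m : ℤ)}
  have hK1 : ∀ m, (K m).Nonempty := by
    intro m
    obtain ⟨y, hy⟩ := claim4 hpl hex h𝒟 hR hρ hN hT m hc
    refine ⟨y, fun σ α => ?_⟩
    have h1 := (PadicInt.norm_le_pow_iff_mem_span_pow ((c σ - (ρ σ *ᵥ y - y)) α) m).2
      (Ideal.mem_span_singleton.2 (by exact_mod_cast hy σ α))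
    exact_mod_cast h1
  have hK2 : ∀ m, K (m + 1) ⊆ K m := by
    intro m y hy σ α
    refine (hy σ α).trans ?_
    exact zpow_le_zpow_right₀ (by norm_num) (by push_cast; linarith)
  have hK3 : ∀ m, IsClosed (K m) := by
    intro m
    have h1 : K m = ⋂ σ, ⋂ α, {y | ‖(c σ - (ρ σ *ᵥ y - y)) α‖ ≤ (3 : ℝ) ^ (-m : ℤ)} := by
      ext y
      simp only [K, Set.mem_ofPred_eq, Set.mem_iInter]
    rw [h1]
    refine isClosed_iInter fun σ => isClosed_iInter fun α => ?_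
    refine isClosed_le (Continuous.norm ?_) continuous_const
    simp only [Pi.sub_apply, Matrix.mulVec, dotProduct]
    exact continuous_const.sub ((continuous_finsetSum _ fun β _ =>
      continuous_const.mul (continuous_apply β)).sub (continuous_apply α))
  obtain ⟨y, hy⟩ := IsCompact.nonempty_iInter_of_sequence_nonempty_isCompact_isClosed K hK2 hK1
    (hK3 0).isCompact hK3
  refine ⟨y, fun σ => ?_⟩
  rw [← sub_eq_zero]
  funext α
  rw [Set.mem_iInter] at hy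
  have h1 : ∀ m : ℕ, ‖(c σ - (ρ σ *ᵥ y - y)) α‖ ≤ (3 : ℝ) ^ (-m : ℤ) := fun m => hy m σ α
  have h2 : ‖(c σ - (ρ σ *ᵥ y - y)) α‖ ≤ 0 := by
    refine ge_of_tendsto' (x := Filter.atTop) (f := fun m : ℕ => (3 : ℝ) ^ (-m : ℤ)) ?_ h1
    have h3 := tendsto_pow_atTop_nhds_zero_of_lt_one (r := (1 / 3 : ℝ)) (by norm_num) (by norm_num)
    refine h3.congr fun m => ?_
    rw [_root_.zpow_neg, zpow_natCast, one_div, inv_pow]
  rw [norm_le_zero_iff] at h2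
  exact h2

private lemma ac_coe (A : Matrix J J ℤ_[3]) (v : J → ℤ_[3]) (α : J) :
    ac A (fun β => (v β : ℚ_[3])) α = (((A *ᵥ v) α : ℤ_[3]) : ℚ_[3]) := by
  rw [Matrix.mulVec, dotProduct, PadicInt.coe_sum]
  exact Finset.sum_congr rfl fun β _ => by rw [PadicInt.coe_mul]

private lemma ac_smul (A : Matrix J J ℤ_[3]) (v : J → ℚ_[3]) (t : ℚ_[3]) :
    ac A (t • v) = t • ac A v := by
  funext α
  simp only [ac, Pi.smul_apply, smul_eq_mul, Finset.mul_sum]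
  exact Finset.sum_congr rfl fun β _ => by ring

/-- integral vectors after a multiplication -/
private lemma exists_mul (v : J → ℚ_[3]) : ∃ (m : ℕ) (z : J → ℤ_[3]), ∀ α,
    (3 : ℚ_[3]) ^ m * v α = z α := by
  obtain ⟨m, hm⟩ := pow_unbounded_of_one_lt (‖v‖ : ℝ) (by norm_num : (1 : ℝ) < 3)
  have h1 : ∀ α, ‖(3 : ℚ_[3]) ^ m * v α‖ ≤ 1 := by
    intro α
    have h3 : ‖(3 : ℚ_[3])‖ = 3⁻¹ := by exact_mod_cast Padic.norm_p (p := 3)
    rw [norm_mul, norm_pow, h3, inv_pow, inv_mul_le_iff₀ (by positivity), mul_one]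
    exact (norm_le_pi_norm v α).trans hm.le
  exact ⟨m, fun α => ⟨_, h1 α⟩, fun α => rfl⟩

/-- integrality on the decomposition groups -/
private lemma claim1 (A : Matrix J J ℤ_[3]) (wt : J → ℕ)
    (off : ∀ α β, α ≠ β → wt β ≤ wt α → f3 (A α β) = 0) (neg : ∀ α, f3 (A α α) = -1)
    (m : ℕ) : ∀ (u : J → ℤ_[3]), (∀ α, (3 : ℤ_[3]) ^ m ∣ (A *ᵥ u - u) α) →
    ∃ u' : J → ℤ_[3], u = (3 : ℤ_[3]) ^ m • u' := by
  induction m with
  | zero => exact fun u _ => ⟨u, by rw [pow_zero, one_smul]⟩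
  | succ m ih =>
    intro u hu
    have h1 := claim2 A wt off neg u 0 (fun α _ => (f3_zero _).1
      (Dvd.dvd.trans (dvd_pow_self _ (Nat.succ_ne_zero m)) (hu α)))
    have hu1 : ∀ α, ∃ t, u α = 3 * t := fun α => (f3_zero _).2 (h1 α (Nat.zero_le _))
    choose u' hu' using hu1
    have hu2 : u = (3 : ℤ_[3]) • u' := by
      funext α
      rw [hu' α]
      rfl
    obtain ⟨u'', hu''⟩ := ih u' (by
      intro α
      have h2 := hu α
      rw [hu2, Matrix.mulVec_smul, ← smul_sub, Pi.smul_apply, smul_eq_mul, pow_succ,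
        mul_comm] at h2
      exact (mul_dvd_mul_iff_left three_ne).1 h2)
    refine ⟨u'', ?_⟩
    rw [hu2, hu'', smul_smul, pow_succ, mul_comm]

end

theorem x : P_X := by
  intro G J _ _ _ _ _ pl 𝒟 N hpl hex h𝒟 hR ρ wt hρ hT hN c hc hdec hvan
  obtain ⟨C, hC⟩ := isCompact_univ.exists_bound_of_continuousOn hc.cont.continuousOn
  obtain ⟨M, hM⟩ := pow_unbounded_of_one_lt C (by norm_num : (1 : ℝ) < 3)
  have h3 : ‖(3 : ℚ_[3])‖ = 3⁻¹ := by exact_mod_cast Padic.norm_p (p := 3)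
  have h30 : (3 : ℚ_[3]) ≠ 0 := by norm_num
  have hint : ∀ σ α, ‖(3 : ℚ_[3]) ^ M * c σ α‖ ≤ 1 := by
    intro σ α
    rw [norm_mul, norm_pow, h3, inv_pow, inv_mul_le_iff₀ (by positivity), mul_one]
    exact ((norm_le_pi_norm (c σ) α).trans (hC σ (Set.mem_univ σ))).trans hM.le
  let c₀ : G → J → ℤ_[3] := fun σ α => ⟨(3 : ℚ_[3]) ^ M * c σ α, hint σ α⟩
  have hc₀ : ∀ σ α, ((c₀ σ α : ℤ_[3]) : ℚ_[3]) = (3 : ℚ_[3]) ^ M * c σ α := fun σ α => rfl
  have hcoe : ∀ u v : J → ℤ_[3], (∀ α, (u α : ℚ_[3]) = (v α : ℚ_[3])) → u = v := by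
    intro u v h
    funext α
    exact Subtype.ext (h α)
  have hI : IC 𝒟 N ρ c₀ := by
    refine ⟨fun α => ?_, fun σ τ => ?_, fun S hS => ?_, fun σ hσ => ?_⟩
    · refine continuous_induced_rng.2 ?_
      exact continuous_const.mul ((continuous_apply α).comp hc.cont)
    · refine hcoe _ _ fun α => ?_
      have h1 := congrFun (hc.mul σ τ) α
      have h2 : (fun β => ((c₀ τ β : ℤ_[3]) : ℚ_[3])) = (3 : ℚ_[3]) ^ M • c τ := by
        funext β
        rw [hc₀]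
        rfl
      rw [hc₀, h1, Pi.add_apply, Pi.add_apply, PadicInt.coe_add, ← ac_coe, h2, ac_smul, hc₀,
        Pi.smul_apply, smul_eq_mul]
      ring
    · obtain ⟨y, hy⟩ := hdec S hS
      obtain ⟨σ₀, hσ₀, hn₀⟩ := h𝒟 S hS
      obtain ⟨m, z, hz⟩ := exists_mul ((3 : ℚ_[3]) ^ M • y)
      have hzz : (fun β => ((z β : ℤ_[3]) : ℚ_[3])) = (3 : ℚ_[3]) ^ m • ((3 : ℚ_[3]) ^ M • y) := by
        funext β
        rw [← hz β]
        rfl
      have hkey : ∀ σ ∈ S, ρ σ *ᵥ z - z = (3 : ℤ_[3]) ^ m • c₀ σ := by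
        intro σ hσ
        refine hcoe _ _ fun α => ?_
        have h4 : (((3 : ℤ_[3]) ^ m : ℤ_[3]) : ℚ_[3]) = 3 ^ m := by
          rw [PadicInt.coe_pow, coe3]
        rw [Pi.sub_apply, PadicInt.coe_sub, ← ac_coe, hzz, ac_smul, ac_smul, ← hz α]
        simp only [Pi.smul_apply, smul_eq_mul, PadicInt.coe_mul, hc₀, h4, hy σ hσ, Pi.sub_apply]
        ring
      obtain ⟨z', hz'⟩ := claim1 (ρ σ₀) wt (fun α β h1 h2 => (f3_zero _).1 (hT.off σ₀ α β h1 h2))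
        (fun α => (f3_neg _).1 (hT.neg σ₀ hn₀ α)) m z (by
          intro α
          rw [hkey σ₀ hσ₀]
          exact ⟨_, rfl⟩)
      refine ⟨z', fun σ hσ => ?_⟩
      have h1 := hkey σ hσ
      rw [hz', Matrix.mulVec_smul, ← smul_sub] at h1
      funext α
      have h2 := congrFun h1 α
      simp only [Pi.smul_apply, smul_eq_mul] at h2
      exact (mul_left_cancel₀ (pow_ne_zero m three_ne) h2).symm
    · refine hcoe _ _ fun α => ?_
      rw [hc₀, hvan σ hσ]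
      simp
  obtain ⟨y, hy⟩ := claim5 hpl hex h𝒟 hR hρ hN hT hI
  refine ⟨fun α => ((3 : ℚ_[3]) ^ M)⁻¹ * (y α : ℚ_[3]), fun σ _ => ?_⟩
  have h1 : (fun α => ((3 : ℚ_[3]) ^ M)⁻¹ * (y α : ℚ_[3])) =
      ((3 : ℚ_[3]) ^ M)⁻¹ • (fun α => ((y α : ℤ_[3]) : ℚ_[3])) := rfl
  rw [h1, ac_smul]
  funext α
  have h2 := congrArg (fun t : ℤ_[3] => (t : ℚ_[3])) (congrFun (hy σ) α)
  simp only [Pi.sub_apply, PadicInt.coe_sub, hc₀, ← ac_coe] at h2
  rw [Pi.sub_apply, Pi.smul_apply, Pi.smul_apply, smul_eq_mul, smul_eq_mul, ← mul_sub, ← h2,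
    inv_mul_cancel_left₀ (pow_ne_zero M h30)]

end Pool.Agent.W2helper16.RG
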